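import Pool.Agent.Y320.ST.Stm
import Pool.Agent.Y320.CM.Basic

/-!
# Project ST (helper320): real affine maps of the sphere, square roots of forms (job 4760)
-/

set_option autoImplicit false
open Filter Topology MeasureTheory Metric

namespace Pool.Agent.Y434.ST
open Pool.Agent.Y320.CM Pool.Agent.Y320.ST

/-! ### extension of homeomorphisms of the plane -/

theorem ext_inf (u : ℂ → ℂ) : ext u inf = inf := by
  unfold ext
  rw [if_pos rfl]

theorem ext_ne (u : ℂ → ℂ) {p : Sph} (hp : p ≠ inf) : ext u p = sg (u (st p)) := by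
  unfold ext
  rw [if_neg hp]

theorem ext_sg (hS : S_STB) (u : ℂ → ℂ) (z : ℂ) : ext u (sg z) = sg (u z) := by
  rw [ext_ne u (hS.2.2.1 z), hS.1]

theorem ext_cont_on (hS : S_STB) (u : ℂ → ℂ) (hu : Continuous u) :
    ContinuousOn (ext u) {inf}ᶜ := by
  have h1 : ContinuousOn (fun p => sg (u (st p))) ({inf}ᶜ : Set Sph) :=
    (hS.2.2.2.1.comp hu).comp_continuousOn hS.2.2.2.2.1
  exact h1.congr fun p hp => ext_ne u hp

theorem ext_inv (hS : S_STB) (h : ℂ ≃ₜ ℂ) (p : Sph) : ext h.symm (ext h p) = p := by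
  by_cases hp : p = inf
  · rw [hp, ext_inf, ext_inf]
  · rw [ext_ne h hp, ext_sg hS, h.symm_apply_apply, hS.2.1 p hp]

theorem ext_inv' (hS : S_STB) (h : ℂ ≃ₜ ℂ) (p : Sph) : ext h (ext h.symm p) = p := by
  by_cases hp : p = inf
  · rw [hp, ext_inf, ext_inf]
  · rw [ext_ne h.symm hp, ext_sg hS, h.apply_symm_apply, hS.2.1 p hp]

theorem ext_cont (hS : S_STB) (h : ℂ ≃ₜ ℂ) : Continuous (ext h) := by
  rw [continuous_iff_continuousAt]
  intro p
  by_cases hp : p = inf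
  · rw [hp]
    unfold ContinuousAt
    rw [ext_inf, _root_.tendsto_nhds]
    intro U hU hi
    have h1 : ext h ⁻¹' U = (ext h.symm '' Uᶜ)ᶜ := by
      ext q
      rw [Set.mem_preimage, Set.mem_compl_iff]
      constructor
      · rintro hq ⟨w, hw, rfl⟩
        rw [ext_inv' hS] at hq
        exact hw hq
      · intro hq
        by_contra hcon
        exact hq ⟨ext h q, hcon, ext_inv hS h q⟩
    have h2 : IsCompact (ext h.symm '' Uᶜ) := by
      refine (hU.isClosed_compl.isCompact).image_of_continuousOn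
        ((ext_cont_on hS h.symm h.symm.continuous).mono ?_)
      intro q hq hq'
      rw [Set.mem_singleton_iff] at hq'
      exact hq (hq' ▸ hi)
    rw [h1]
    refine h2.isClosed.isOpen_compl.mem_nhds ?_
    rintro ⟨w, hw, hw2⟩
    apply hw
    have h3 := congrArg (ext h) hw2
    rw [ext_inv' hS, ext_inf] at h3
    rw [h3]
    exact hi
  · exact (ext_cont_on hS h h.continuous).continuousAt
      (isOpen_compl_singleton.mem_nhds hp)

/-- the extension as a homeomorphism -/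
noncomputable def extH (hS : S_STB) (h : ℂ ≃ₜ ℂ) : Sph ≃ₜ Sph where
  toFun := ext h
  invFun := ext h.symm
  left_inv := ext_inv hS h
  right_inv := ext_inv' hS h
  continuous_toFun := ext_cont hS h
  continuous_invFun := ext_cont hS h.symm

/-! ### cross ratios -/

theorem cr_s1 (a b c e : Sph) : cr a b c e = cr b a e c := by
  unfold cr
  rw [dist_comm a b, dist_comm c e, mul_comm (dist a c)]

theorem cr_s2 (a b c e : Sph) : cr a b c e = cr c e a b := by
  unfold cr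
  rw [dist_comm c a, dist_comm e b, mul_comm (dist a b)]

theorem D4_s1 {a b c e : Sph} (h : D4 a b c e) : D4 b a e c := by
  obtain ⟨h1, h2, h3, h4, h5, h6⟩ := h
  exact ⟨h1.symm, h5, h4, h3, h2, h6.symm⟩

theorem D4_s2 {a b c e : Sph} (h : D4 a b c e) : D4 c e a b := by
  obtain ⟨h1, h2, h3, h4, h5, h6⟩ := h
  exact ⟨h6, h2.symm, h4.symm, h3.symm, h5.symm, h1⟩

section

variable (hS : S_STB) {A : Sph → Sph} {h : ℂ → ℂ} {s S : ℝ} (hs : 0 < s)
  (hh : ∀ z w, s * dist z w ≤ dist (h z) (h w) ∧ dist (h z) (h w) ≤ S * dist z w)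
  (hA0 : A inf = inf) (hA : ∀ z, A (sg z) = sg (h z))

include hh in
theorem sS : s ≤ S := by
  have h1 := hh 0 1
  have h2 := h1.1.trans h1.2
  rw [dist_comm, dist_zero_right, norm_one] at h2
  linarith

include hS hs hh hA0 hA in
theorem cr_inf {a b c : Sph} (hD : D4 a b c inf) :
    cr (A a) (A b) (A c) (A inf) ≤ (S / s) ^ 2 * cr a b c inf := by
  obtain ⟨h1, h2, h3, h4, h5, h6⟩ := hD
  obtain ⟨a, rfl⟩ : ∃ z, a = sg z := ⟨st a, (hS.2.1 a h3).symm⟩
  obtain ⟨b, rfl⟩ : ∃ z, b = sg z := ⟨st b, (hS.2.1 b h5).symm⟩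
  obtain ⟨c, rfl⟩ : ∃ z, c = sg z := ⟨st c, (hS.2.1 c h6).symm⟩
  have hac : a ≠ c := fun h => h2 (by rw [h])
  have hd : 0 < dist a c := dist_pos.2 hac
  have hd2 : 0 < dist (h a) (h c) := lt_of_lt_of_le (mul_pos hs hd) (hh a c).1
  have hne : h a ≠ h c := dist_pos.1 hd2
  rw [hA, hA, hA, hA0, hS.2.2.2.2.2.2.2.1 _ _ _ hne, hS.2.2.2.2.2.2.2.1 _ _ _ hac]
  have hsS := sS hh
  have hS0 : 0 < S := lt_of_lt_of_le hs hsS
  have h7 : 1 ≤ S / s := (one_le_div hs).2 hsS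
  calc dist (h a) (h b) / dist (h a) (h c) ≤ (S * dist a b) / (s * dist a c) :=
        div_le_div₀ (by positivity) (hh a b).2 (by positivity) (hh a c).1
    _ = (S / s) * (dist a b / dist a c) := by field_simp
    _ ≤ (S / s) ^ 2 * (dist a b / dist a c) := by
        refine mul_le_mul_of_nonneg_right ?_ (by positivity)
        nlinarith

include hS hs hh hA0 hA in
theorem cr_all {a b c e : Sph} (hD : D4 a b c e) :
    cr (A a) (A b) (A c) (A e) ≤ (S / s) ^ 2 * cr a b c e := by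
  by_cases he : e = inf
  · subst he
    exact cr_inf hS hs hh hA0 hA hD
  by_cases hc : c = inf
  · subst hc
    rw [cr_s1 a b inf e, cr_s1 (A a) (A b) (A inf) (A e)]
    exact cr_inf hS hs hh hA0 hA (D4_s1 hD)
  by_cases hb : b = inf
  · subst hb
    rw [cr_s2 a inf c e, cr_s2 (A a) (A inf) (A c) (A e)]
    exact cr_inf hS hs hh hA0 hA (D4_s2 hD)
  by_cases ha : a = inf
  · subst ha
    rw [cr_s2 inf b c e, cr_s2 (A inf) (A b) (A c) (A e), cr_s1 c e inf b,
      cr_s1 (A c) (A e) (A inf) (A b)]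
    exact cr_inf hS hs hh hA0 hA (D4_s1 (D4_s2 hD))
  obtain ⟨h1, h2, h3, h4, h5, h6⟩ := hD
  obtain ⟨a, rfl⟩ : ∃ z, a = sg z := ⟨st a, (hS.2.1 a ha).symm⟩
  obtain ⟨b, rfl⟩ : ∃ z, b = sg z := ⟨st b, (hS.2.1 b hb).symm⟩
  obtain ⟨c, rfl⟩ : ∃ z, c = sg z := ⟨st c, (hS.2.1 c hc).symm⟩
  obtain ⟨e, rfl⟩ : ∃ z, e = sg z := ⟨st e, (hS.2.1 e he).symm⟩
  have hac : 0 < dist a c := dist_pos.2 fun h => h2 (by rw [h])
  have hbe : 0 < dist b e := dist_pos.2 fun h => h5 (by rw [h])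
  have hsS := sS hh
  have hS0 : 0 < S := lt_of_lt_of_le hs hsS
  rw [hA, hA, hA, hA, hS.2.2.2.2.2.2.2.2, hS.2.2.2.2.2.2.2.2]
  calc dist (h a) (h b) * dist (h c) (h e) / (dist (h a) (h c) * dist (h b) (h e)) ≤
        (S * dist a b) * (S * dist c e) / ((s * dist a c) * (s * dist b e)) :=
        div_le_div₀ (by positivity)
          (mul_le_mul (hh a b).2 (hh c e).2 dist_nonneg (by positivity)) (by positivity)
          (mul_le_mul (hh a c).1 (hh b e).1 (by positivity) dist_nonneg)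
    _ = (S / s) ^ 2 * (dist a b * dist c e / (dist a c * dist b e)) := by field_simp

end

theorem t_EXT (hS : S_STB) : S_EXT := by
  intro L
  have hM : 0 < ‖(L : ℂ →L[ℝ] ℂ)‖ + 1 := by positivity
  have hN : 0 < ‖(L.symm : ℂ →L[ℝ] ℂ)‖ + 1 := by positivity
  obtain ⟨M, hMd⟩ : ∃ M, M = ‖(L : ℂ →L[ℝ] ℂ)‖ + 1 := ⟨_, rfl⟩
  obtain ⟨N, hNd⟩ : ∃ N, N = ‖(L.symm : ℂ →L[ℝ] ℂ)‖ + 1 := ⟨_, rfl⟩
  rw [← hMd] at hM
  rw [← hNd] at hN
  have hL1 : ∀ w, ‖L w‖ ≤ M * ‖w‖ := by
    intro w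
    have h1 := (L : ℂ →L[ℝ] ℂ).le_opNorm w
    have h2 : (L : ℂ →L[ℝ] ℂ) w = L w := rfl
    rw [h2] at h1
    rw [hMd]
    nlinarith [norm_nonneg w]
  have hL2 : ∀ w, ‖w‖ ≤ N * ‖L w‖ := by
    intro w
    have h1 := (L.symm : ℂ →L[ℝ] ℂ).le_opNorm (L w)
    have h2 : (L.symm : ℂ →L[ℝ] ℂ) (L w) = w := L.symm_apply_apply w
    rw [h2] at h1
    rw [hNd]
    nlinarith [norm_nonneg (L w)]
  have hMN : 1 ≤ M * N := by
    have h1 := hL1 1
    have h2 := hL2 1
    rw [norm_one] at h1 h2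
    nlinarith
  refine ⟨(M * N) ^ 2, by nlinarith, fun x r hr => ?_⟩
  have hrc : (r : ℂ)⁻¹ ≠ 0 := inv_ne_zero (by exact_mod_cast hr.ne')
  obtain ⟨h, hh⟩ : ∃ h : ℂ ≃ₜ ℂ, ∀ z, h z = L ((r : ℂ)⁻¹ * (z - x)) :=
    ⟨((Homeomorph.subRight x).trans (Homeomorph.mulLeft₀ _ hrc)).trans L.toHomeomorph,
      fun z => rfl⟩
  have hd : ∀ z w, dist (h z) (h w) = ‖L ((r : ℂ)⁻¹ * (z - w))‖ := by
    intro z w
    rw [dist_eq_norm, hh, hh, ← map_sub]
    congr 2
    ring
  have hn : ∀ z w : ℂ, ‖(r : ℂ)⁻¹ * (z - w)‖ = r⁻¹ * dist z w := by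
    intro z w
    rw [norm_mul, norm_inv, Complex.norm_real, Real.norm_eq_abs, abs_of_pos hr, dist_eq_norm]
  have hb : ∀ z w, N⁻¹ * r⁻¹ * dist z w ≤ dist (h z) (h w) ∧
      dist (h z) (h w) ≤ M * r⁻¹ * dist z w := by
    intro z w
    rw [hd]
    constructor
    · have h1 := hL2 ((r : ℂ)⁻¹ * (z - w))
      rw [hn] at h1
      rw [mul_assoc, inv_mul_le_iff₀ hN]
      exact h1
    · have h1 := hL1 ((r : ℂ)⁻¹ * (z - w))
      rw [hn] at h1
      rw [mul_assoc]
      exact h1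
  have hb' : ∀ z w, (M * r⁻¹)⁻¹ * dist z w ≤ dist (h.symm z) (h.symm w) ∧
      dist (h.symm z) (h.symm w) ≤ (N⁻¹ * r⁻¹)⁻¹ * dist z w := by
    intro z w
    have h1 := hb (h.symm z) (h.symm w)
    rw [h.apply_symm_apply, h.apply_symm_apply] at h1
    constructor
    · rw [inv_mul_le_iff₀ (by positivity)]
      exact h1.2
    · rw [inv_mul_eq_div, le_div_iff₀ (by positivity), mul_comm]
      exact h1.1
  have hA0 : extH hS h inf = inf := ext_inf _
  have hA : ∀ z, extH hS h (sg z) = sg (h z) := fun z => ext_sg hS h z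
  have hB0 : (extH hS h).symm inf = inf := ext_inf _
  have hB : ∀ z, (extH hS h).symm (sg z) = sg (h.symm z) := fun z => ext_sg hS h.symm z
  refine ⟨extH hS h, hA0, fun z => by rw [hA, hh], fun a b c e hD t ht => ?_,
    fun a b c e hD t ht => ?_⟩
  · have h1 := cr_all hS (by positivity) hb hA0 hA hD
    have h2 : M * r⁻¹ / (N⁻¹ * r⁻¹) = M * N := by field_simp
    rw [h2] at h1
    exact h1.trans (mul_le_mul_of_nonneg_left ht (by positivity))
  · have h1 := cr_all hS (by positivity) hb' hB0 hB hD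
    have h2 : (N⁻¹ * r⁻¹)⁻¹ / (M * r⁻¹)⁻¹ = M * N := by field_simp
    rw [h2] at h1
    exact h1.trans (mul_le_mul_of_nonneg_left ht (by positivity))

/-! ### square roots of forms -/

/-- the linear map -/
noncomputable def sq (p q s : ℝ) : ℂ →ₗ[ℝ] ℂ where
  toFun w := ⟨p * w.re + q * w.im, s * w.im⟩
  map_add' w v := by
    apply Complex.ext <;> simp <;> ring
  map_smul' k w := by
    apply Complex.ext <;> simp <;> ring

theorem t_SQRT : S_SQRT := by
  intro a b c C hC h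
  have hC' : 0 < C⁻¹ := inv_pos.2 hC
  have ha : 0 < a := by
    have h1 := h 1
    unfold qf at h1
    simp at h1
    linarith
  have hD : 0 < a * c - b ^ 2 := by
    have h1 := h ⟨-b, a⟩
    unfold qf at h1
    have h2 : ‖(⟨-b, a⟩ : ℂ)‖ ^ 2 = b ^ 2 + a ^ 2 := by
      rw [← Complex.normSq_eq_norm_sq, Complex.normSq_apply]
      ring
    rw [h2] at h1
    have h3 : 0 < C⁻¹ * (b ^ 2 + a ^ 2) := by positivity
    have h4 : 0 < a * (a * c - b ^ 2) := by
      have h5 : a * (-b) ^ 2 + 2 * b * (-b) * a + c * a ^ 2 = a * (a * c - b ^ 2) := by ring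
      linarith
    exact (pos_iff_pos_of_mul_pos h4).1 ha
  have hE : 0 ≤ c - b ^ 2 / a := by
    rw [sub_nonneg, div_le_iff₀ ha]
    linarith
  have hf : ∀ w, ‖sq (√a) (b / √a) (√(c - b ^ 2 / a)) w‖ ^ 2 = qf a b c w := by
    intro w
    rw [← Complex.normSq_eq_norm_sq, Complex.normSq_apply]
    unfold qf
    have h1 : (sq (√a) (b / √a) (√(c - b ^ 2 / a)) w).re = √a * w.re + b / √a * w.im := rfl
    have h2 : (sq (√a) (b / √a) (√(c - b ^ 2 / a)) w).im = √(c - b ^ 2 / a) * w.im := rfl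
    rw [h1, h2]
    have h3 : √a * √a = a := Real.mul_self_sqrt ha.le
    have h4 : √(c - b ^ 2 / a) * √(c - b ^ 2 / a) = c - b ^ 2 / a := Real.mul_self_sqrt hE
    have h5 : √a ≠ 0 := (Real.sqrt_pos.2 ha).ne'
    have h6 : √a * (b / √a) = b := by field_simp
    have h7 : (b / √a) * (b / √a) = b ^ 2 / a := by
      rw [div_mul_div_comm, h3]
      ring
    calc (√a * w.re + b / √a * w.im) * (√a * w.re + b / √a * w.im) +
          √(c - b ^ 2 / a) * w.im * (√(c - b ^ 2 / a) * w.im) =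
          (√a * √a) * w.re ^ 2 + 2 * (√a * (b / √a)) * w.re * w.im +
            ((b / √a) * (b / √a) + √(c - b ^ 2 / a) * √(c - b ^ 2 / a)) * w.im ^ 2 := by ring
      _ = a * w.re ^ 2 + 2 * b * w.re * w.im + c * w.im ^ 2 := by
        rw [h3, h4, h6, h7]
        ring
  have hinj : Function.Injective (sq (√a) (b / √a) (√(c - b ^ 2 / a))) := by
    rw [injective_iff_map_eq_zero]
    intro w hw
    have h1 := hf w
    rw [hw, norm_zero] at h1
    have h2 := h w
    rw [← h1] at h2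
    have h3 : ‖w‖ ^ 2 ≤ 0 := by
      by_contra hcon
      push Not at hcon
      have := mul_pos hC' hcon
      simp at h2
      linarith
    have h4 : ‖w‖ = 0 := by nlinarith [norm_nonneg w]
    exact norm_eq_zero.1 h4
  exact ⟨(LinearEquiv.ofInjectiveEndo _ hinj).toContinuousLinearEquiv, fun w => hf w⟩

end Pool.Agent.Y434.ST
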